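import Pool.Agent.Helper11_SP.Fin

/-! # The symplectic graph in characteristic two, and the threshold of the class -/

set_option autoImplicit false
set_option linter.unusedSectionVars false

namespace Pool.Agent.SP

open Finset SimpleGraph

/-- the least `k` such that every graph with `n` vertices, minimum degree at least `k`, in which
having no common neighbour is transitive, contains a four-cycle -/
noncomputable def fT (n : ℕ) : ℕ :=
  open Classical in
  sInf {k : ℕ | ∀ G : SimpleGraph (Fin n), Trans G → k ≤ G.minDegree →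
    (cycleGraph 4).IsContained G}

section ex

variable {K : Type} [Field K] [CharP K 2]

/-- the symplectic form -/
def B (u v : K × K) : K := u.1 * v.2 + u.2 * v.1

omit [CharP K 2] in
theorem B_comm (u v : K × K) : B u v = B v u := by
  unfold B; ring

theorem B_self (u : K × K) : B u u = 0 := by
  unfold B
  rw [mul_comm u.2 u.1]
  exact CharTwo.add_self_eq_zero _

/-- the graph -/
def SG (K : Type) [Field K] [CharP K 2] : SimpleGraph {v : K × K // v ≠ 0} where
  Adj u v := B u.1 v.1 = 1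
  symm := ⟨fun u v h => by rw [B_comm]; exact h⟩
  loopless := ⟨fun u h => by
    rw [B_self] at h
    exact zero_ne_one h⟩

/-- parallel vectors -/
theorem par {u v : K × K} (hu : u ≠ 0) (h : B u v = 0) : ∃ c : K, v = c • u := by
  have h2 : ∀ x : K, x + x = 0 := CharTwo.add_self_eq_zero
  unfold B at h
  by_cases h1 : u.1 = 0
  · have hu2 : u.2 ≠ 0 := fun h3 => hu (Prod.ext h1 h3)
    refine ⟨v.2 / u.2, Prod.ext ?_ ?_⟩
    · rw [h1] at h
      simp at h
      rcases h with h | h
      · exact absurd h hu2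
      · simp [h, h1]
    · simp [div_mul_cancel₀ _ hu2]
  · refine ⟨v.1 / u.1, Prod.ext ?_ ?_⟩
    · simp [div_mul_cancel₀ _ h1]
    · have h3 : u.1 * v.2 = u.2 * v.1 := by
        have := h2 (u.2 * v.1)
        linear_combination h - this
      simp only [Prod.smul_snd, smul_eq_mul]
      field_simp
      linear_combination h3

theorem B_smul (c : K) (u v : K × K) : B (c • u) v = c * B u v := by
  unfold B
  simp only [Prod.smul_fst, Prod.smul_snd, smul_eq_mul]
  ring

theorem B_smul' (c : K) (u v : K × K) : B u (c • v) = c * B u v := by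
  unfold B
  simp only [Prod.smul_fst, Prod.smul_snd, smul_eq_mul]
  ring

theorem B_add (u v w : K × K) : B u (v + w) = B u v + B u w := by
  unfold B
  simp only [Prod.fst_add, Prod.snd_add]
  ring

/-- Different vertices with a common neighbour are not parallel. -/
theorem ne_of_common {u v w : K × K} (huv : u ≠ v) (hu : u ≠ 0) (h1 : B u w = 1) (h2 : B v w = 1) :
    B u v ≠ 0 := by
  intro h
  obtain ⟨c, hc⟩ := par hu h
  rw [hc, B_smul, h1, mul_one] at h2
  rw [h2, one_smul] at hc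
  exact huv hc.symm

theorem SG_c4 (u v w w' : {v : K × K // v ≠ 0}) (huv : u ≠ v) (h1 : (SG K).Adj u w)
    (h2 : (SG K).Adj v w) (h3 : (SG K).Adj u w') (h4 : (SG K).Adj v w') : w = w' := by
  change B u.1 w.1 = 1 at h1
  change B v.1 w.1 = 1 at h2
  change B u.1 w'.1 = 1 at h3
  change B v.1 w'.1 = 1 at h4
  have hne : u.1 ≠ v.1 := fun h => huv (Subtype.ext h)
  have hD := ne_of_common hne u.2 h1 h2
  have e2 : ∀ x : K, x + x = 0 := CharTwo.add_self_eq_zero
  have k1 : B u.1 (w.1 + w'.1) = 0 := by rw [B_add, h1, h3]; exact e2 1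
  have k2 : B v.1 (w.1 + w'.1) = 0 := by rw [B_add, h2, h4]; exact e2 1
  obtain ⟨c, hc⟩ := par u.2 k1
  rw [hc, B_comm, B_smul] at k2
  have hc0 : c = 0 := by
    rcases mul_eq_zero.1 k2 with h | h
    · exact h
    · exact absurd h hD
  rw [hc0, zero_smul] at hc
  apply Subtype.ext
  have k3 : w'.1 + w'.1 = 0 := Prod.ext (e2 _) (e2 _)
  calc w.1 = w.1 + (w'.1 + w'.1) := by rw [k3, add_zero]
    _ = (w.1 + w'.1) + w'.1 := by rw [add_assoc]
    _ = w'.1 := by rw [hc, zero_add]

theorem SG_noCommon (u v : {v : K × K // v ≠ 0}) (huv : u ≠ v) :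
    NoCommon (SG K) u v ↔ B u.1 v.1 = 0 := by
  have e2 : ∀ x : K, x + x = 0 := CharTwo.add_self_eq_zero
  constructor
  · intro h
    by_contra hD
    have hne : u.1 ≠ v.1 := fun h => huv (Subtype.ext h)
    have hw : (B u.1 v.1)⁻¹ • (u.1 + v.1) ≠ 0 := by
      intro h0
      rcases smul_eq_zero.1 h0 with h1 | h1
      · exact hD (inv_eq_zero.1 h1)
      · apply hne
        have k3 : v.1 + v.1 = 0 := Prod.ext (e2 _) (e2 _)
        calc u.1 = u.1 + (v.1 + v.1) := by rw [k3, add_zero]
          _ = (u.1 + v.1) + v.1 := by rw [add_assoc]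
          _ = v.1 := by rw [h1, zero_add]
    apply h ⟨_, hw⟩
    constructor
    · change B u.1 ((B u.1 v.1)⁻¹ • (u.1 + v.1)) = 1
      rw [B_smul', B_add, B_self, zero_add, inv_mul_cancel₀ hD]
    · change B v.1 ((B u.1 v.1)⁻¹ • (u.1 + v.1)) = 1
      rw [B_smul', B_add, B_self, add_zero, B_comm v.1 u.1, inv_mul_cancel₀ hD]
  · intro h w hw
    have hne : u.1 ≠ v.1 := fun h => huv (Subtype.ext h)
    exact ne_of_common hne u.2 hw.1 hw.2 h

/-- a neighbour -/
theorem exists_nb (u : K × K) (hu : u ≠ 0) : ∃ w : K × K, B u w = 1 := by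
  by_cases h1 : u.1 = 0
  · have hu2 : u.2 ≠ 0 := fun h3 => hu (Prod.ext h1 h3)
    refine ⟨(u.2⁻¹, 0), ?_⟩
    simp [B, mul_inv_cancel₀ hu2]
  · refine ⟨(0, u.1⁻¹), ?_⟩
    simp [B, mul_inv_cancel₀ h1]

theorem SG_trans : Trans (SG K) := by
  intro u v w huw h1 h2
  have hself : ∀ x : {v : K × K // v ≠ 0}, ¬ NoCommon (SG K) x x := by
    intro x hx
    obtain ⟨y, hy⟩ := exists_nb x.1 x.2
    have hy0 : y ≠ 0 := by
      rintro rfl
      simp [B] at hy
    exact hx ⟨y, hy0⟩ ⟨hy, hy⟩
  have huv : u ≠ v := fun h => hself u (by rw [← h] at h1; exact h1)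
  have hvw : v ≠ w := fun h => hself v (by rw [← h] at h2; exact h2)
  rw [SG_noCommon _ _ huv] at h1
  rw [SG_noCommon _ _ hvw] at h2
  rw [SG_noCommon _ _ huw]
  obtain ⟨c, hc⟩ := par v.2 h2
  rw [hc, B_comm, B_smul, B_comm, h1, mul_zero]

theorem SG_deg [Fintype K] [DecidableEq K] [DecidableRel (SG K).Adj] (u : {v : K × K // v ≠ 0}) :
    Fintype.card K ≤ (SG K).degree u := by
  obtain ⟨w, hw⟩ := exists_nb u.1 u.2
  have hB : ∀ t : K, B u.1 (w + t • u.1) = 1 := by
    intro t
    rw [B_add, hw, B_comm, B_smul, B_self, mul_zero, add_zero]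
  have h0 : ∀ t : K, w + t • u.1 ≠ 0 := by
    intro t h
    have := hB t
    rw [h] at this
    simp [B] at this
  rw [← SimpleGraph.card_neighborFinset_eq_degree, ← Finset.card_univ]
  apply Finset.card_le_card_of_injOn (fun t => (⟨w + t • u.1, h0 t⟩ : {v : K × K // v ≠ 0}))
  · intro t _
    rw [SetLike.mem_coe, SimpleGraph.mem_neighborFinset]
    exact hB t
  · intro t _ t' _ h
    have h1 : w + t • u.1 = w + t' • u.1 := congrArg Subtype.val h
    have h2 : t • u.1 = t' • u.1 := add_left_cancel h1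
    exact smul_left_injective K u.2 h2

end ex

/-! ### The thresholds -/

open Classical in
theorem fT_mem (n : ℕ) : ∀ G : SimpleGraph (Fin n), Trans G → fT n ≤ G.minDegree →
    (cycleGraph 4).IsContained G := by
  have h : {k : ℕ | ∀ G : SimpleGraph (Fin n), Trans G → k ≤ G.minDegree →
      (cycleGraph 4).IsContained G}.Nonempty := by
    refine ⟨N73277a7f.f n, fun G _ hG => ?_⟩
    exact f_mem n G hG
  intro G ht hG
  exact Nat.sInf_mem h G ht hG

theorem fT_le (n : ℕ) : fT n ≤ N73277a7f.f n := by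
  classical
  unfold fT
  apply Nat.sInf_le
  intro G _ hG
  exact f_mem n G hG

open Classical in
/-- a graph for a value below the threshold -/
theorem exists_of_lt_fT {n d : ℕ} (h : d < fT n) : ∃ G : SimpleGraph (Fin n), Trans G ∧
    d ≤ G.minDegree ∧ ¬ (cycleGraph 4).IsContained G := by
  have h1 := Nat.notMem_of_lt_sInf h
  simp only [Set.mem_ofPred_eq, not_forall] at h1
  obtain ⟨G, h2, h3, h4⟩ := h1
  exact ⟨G, h2, h3, h4⟩

/-- Below the threshold. -/
theorem of_lt_fT {n d : ℕ} (hd : 2 ≤ d) (hn : n < d ^ 2 ∨ (Even d ∧ n ≤ d ^ 2)) (h : d < fT n) :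
    Even d ∧ ∃ s, 1 ≤ s ∧ s ∣ d ∧ s ^ 2 < d ∧ d - s ^ 2 ∣ s ^ 2 * (s ^ 2 - 1) ∧
      n + s ^ 2 = d ^ 2 := by
  classical
  obtain ⟨G, ht, hdeg, hC⟩ := exists_of_lt_fT h
  have hne : Nonempty (Fin n) := by
    rcases Nat.eq_zero_or_pos n with h0 | h0
    · exfalso
      subst h0
      have h1 : IsEmpty (Fin 0) := inferInstance
      have : G.minDegree = 0 := by simp [SimpleGraph.minDegree]
      omega
    · exact ⟨⟨0, h0⟩⟩
  have h2 := semiplane (G := G) hd hC ht (Or.inr ⟨fun v => hdeg.trans (G.minDegree_le_degree v), by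
    rw [Fintype.card_fin]
    exact hn⟩)
  rw [Fintype.card_fin] at h2
  exact h2

/-- The general upper bound at `q ^ 2 - 1`. -/
theorem f_le (q : ℕ) (hq : 2 ≤ q) : N73277a7f.f (q ^ 2 - 1) ≤ q + 1 := by
  classical
  apply Nat.sInf_le
  intro G hG
  by_contra hC
  have hpos : 0 < q ^ 2 - 1 := by
    have : 4 ≤ q ^ 2 := by nlinarith
    omega
  have h1 := deg_bound (G := G) (d := q + 1) (c4_free hC)
    (fun v => le_trans hG (G.minDegree_le_degree v)) ⟨0, hpos⟩
  have h2 : q + 1 ≤ G.degree ⟨0, hpos⟩ := le_trans hG (G.minDegree_le_degree _)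
  rw [Fintype.card_fin] at h1
  have h3 : (q + 1) * q ≤ G.degree ⟨0, hpos⟩ * (q + 1 - 1) := by
    rw [Nat.add_sub_cancel]
    exact Nat.mul_le_mul_right q h2
  have h4 : (q + 1) * q + 1 ≤ q ^ 2 - 1 := by omega
  have h5 : (q + 1) * q + 2 ≤ q ^ 2 := by omega
  nlinarith

/-- transport -/
theorem lower {V : Type} [Fintype V] (G : SimpleGraph V) (n q : ℕ) (hV : Fintype.card V = n)
    (hn : 0 < n)
    (hc : ∀ u v w w', u ≠ v → G.Adj u w → G.Adj v w → G.Adj u w' → G.Adj v w' → w = w')
    (ht : Trans G) (hd : ∀ v, ∃ φ : Fin q → V, Function.Injective φ ∧ ∀ i, G.Adj v (φ i)) :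
    q < fT n := by
  classical
  by_contra hcon
  push Not at hcon
  let σ : Fin n ≃ V := (Fintype.equivFinOfCardEq hV).symm
  let G' : SimpleGraph (Fin n) := G.comap σ
  have hadj : ∀ a b, G'.Adj a b ↔ G.Adj (σ a) (σ b) := fun a b => Iff.rfl
  have hnc : ∀ a b, NoCommon G' a b ↔ NoCommon G (σ a) (σ b) := by
    intro a b
    constructor
    · intro h w hw
      apply h (σ.symm w)
      rw [hadj, hadj, σ.apply_symm_apply]
      exact hw
    · intro h w hw
      exact h (σ w) hw
  have ht' : Trans G' := by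
    intro u v w huw h1 h2
    rw [hnc] at h1 h2 ⊢
    exact ht _ _ _ (fun h => huw (σ.injective h)) h1 h2
  have hne : Nonempty (Fin n) := ⟨⟨0, hn⟩⟩
  have hmin : q ≤ G'.minDegree := by
    apply SimpleGraph.le_minDegree_of_forall_le_degree
    intro v
    obtain ⟨φ, hφ, hφ'⟩ := hd (σ v)
    rw [← SimpleGraph.card_neighborFinset_eq_degree]
    have h1 : (Finset.univ : Finset (Fin q)).card ≤ (G'.neighborFinset v).card := by
      apply Finset.card_le_card_of_injOn (fun i => σ.symm (φ i))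
      · intro i _
        rw [SetLike.mem_coe, SimpleGraph.mem_neighborFinset, hadj, σ.apply_symm_apply]
        exact hφ' i
      · intro i _ j _ h
        exact hφ (σ.symm.injective h)
    rwa [Finset.card_univ, Fintype.card_fin] at h1
  have hC := fT_mem n G' ht' (hcon.trans hmin)
  obtain ⟨⟨φ, hφ⟩⟩ := hC
  have a01 : G'.Adj (φ 0) (φ 1) := φ.map_rel (by rw [cycleGraph_adj]; decide)
  have a12 : G'.Adj (φ 1) (φ 2) := φ.map_rel (by rw [cycleGraph_adj]; decide)
  have a23 : G'.Adj (φ 2) (φ 3) := φ.map_rel (by rw [cycleGraph_adj]; decide)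
  have a30 : G'.Adj (φ 3) (φ 0) := φ.map_rel (by rw [cycleGraph_adj]; decide)
  have n02 : φ 0 ≠ φ 2 := fun h => by
    have := hφ h
    revert this
    decide
  have n13 : φ 1 ≠ φ 3 := fun h => by
    have := hφ h
    revert this
    decide
  apply n13
  apply σ.injective
  exact hc (σ (φ 0)) (σ (φ 2)) _ _ (fun h => n02 (σ.injective h)) a01 a12.symm a30.symm a23

theorem fT_ex (e : ℕ) (he : 1 ≤ e) : 2 ^ e < fT ((2 ^ e) ^ 2 - 1) := by
  classical
  have : Fact (Nat.Prime 2) := ⟨Nat.prime_two⟩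
  let K := GaloisField 2 e
  have : Finite K := by
    have := GaloisField.card 2 e (by omega)
    exact Nat.finite_of_card_ne_zero (by rw [this]; positivity)
  have : Fintype K := Fintype.ofFinite K
  have hK : Fintype.card K = 2 ^ e := by
    rw [← Nat.card_eq_fintype_card]
    exact GaloisField.card 2 e (by omega)
  have hq : 2 ≤ 2 ^ e := by
    calc 2 = 2 ^ 1 := by norm_num
      _ ≤ 2 ^ e := Nat.pow_le_pow_right (by norm_num) he
  have hpos : 0 < (2 ^ e) ^ 2 - 1 := by
    have : 4 ≤ (2 ^ e) ^ 2 := by nlinarith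
    omega
  apply lower (SG K) _ _ _ hpos (fun u v w w' => SG_c4 u v w w') SG_trans
  · intro v
    have h1 := SG_deg (K := K) v
    rw [hK, ← SimpleGraph.card_neighborFinset_eq_degree] at h1
    obtain ⟨t, ht1, ht2⟩ := Finset.exists_subset_card_eq h1
    refine ⟨fun i => ((Finset.equivFinOfCardEq ht2).symm i).1, ?_, ?_⟩
    · intro i j h
      exact (Finset.equivFinOfCardEq ht2).symm.injective (Subtype.ext h)
    · intro i
      have := ht1 ((Finset.equivFinOfCardEq ht2).symm i).2
      rw [SimpleGraph.mem_neighborFinset] at this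
      exact this
  · rw [Fintype.card_subtype_compl, Fintype.card_prod, hK]
    simp
    ring_nf

/-- The drop in the class at `4 ^ e - 1`. -/
theorem fT_drop (e : ℕ) (he : 1 ≤ e) :
    fT ((2 ^ e) ^ 2) < fT ((2 ^ e) ^ 2 - 1) ∧
      fT ((2 ^ e) ^ 2 - 1) = N73277a7f.f ((2 ^ e) ^ 2 - 1) := by
  have hq : 2 ≤ 2 ^ e := by
    calc 2 = 2 ^ 1 := by norm_num
      _ ≤ 2 ^ e := Nat.pow_le_pow_right (by norm_num) he
  have h1 := fT_ex e he
  have h2 := f_le (2 ^ e) hq
  have h3 := fT_le ((2 ^ e) ^ 2 - 1)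
  have hev : Even (2 ^ e) := by
    rw [Nat.even_pow]
    exact ⟨even_two, by omega⟩
  have h4 : fT ((2 ^ e) ^ 2) ≤ 2 ^ e := by
    by_contra hcon
    push Not at hcon
    obtain ⟨-, s, hs, -, -, -, h5⟩ := of_lt_fT hq (Or.inr ⟨hev, le_refl _⟩) hcon
    have : 0 < s ^ 2 := by positivity
    omega
  omega

end Pool.Agent.SP
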