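import Pool.Agent.Helper11_SP.Main
import Pool.Prelude.Def_F_692dd254

/-! # Minimum degree, four-cycles, and the parity of the number of vertices -/

set_option autoImplicit false
set_option linter.unusedSectionVars false

namespace Pool.Agent.SP

open Finset SimpleGraph

theorem c4_of_common {V : Type} (G : SimpleGraph V) {u v w w' : V} (huv : u ≠ v) (hww : w ≠ w')
    (h1 : G.Adj u w) (h2 : G.Adj u w') (h3 : G.Adj v w) (h4 : G.Adj v w') :
    (cycleGraph 4).IsContained G := by
  let φ : Fin 4 → V := ![u, w, v, w']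
  have hadj : ∀ a b : Fin 4, (cycleGraph 4).Adj a b → G.Adj (φ a) (φ b) := by
    intro a b hab
    rw [cycleGraph_adj] at hab
    fin_cases a <;> fin_cases b <;> simp [φ] at hab ⊢ <;>
      first
        | exact h1
        | exact h1.symm
        | exact h2
        | exact h2.symm
        | exact h3
        | exact h3.symm
        | exact h4
        | exact h4.symm
        | (exfalso; revert hab; decide)
  have hinj : Function.Injective φ := by
    intro a b hab
    fin_cases a <;> fin_cases b <;> simp [φ] at hab ⊢ <;>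
      first
        | exact huv hab
        | exact huv hab.symm
        | exact hww hab
        | exact hww hab.symm
        | exact h1.ne hab
        | exact h1.ne hab.symm
        | exact h2.ne hab
        | exact h2.ne hab.symm
        | exact h3.ne hab
        | exact h3.ne hab.symm
        | exact h4.ne hab
        | exact h4.ne hab.symm
  exact ⟨⟨⟨φ, fun {a b} h => hadj a b h⟩, hinj⟩⟩

theorem c4_free {V : Type} {G : SimpleGraph V} (h : ¬ (cycleGraph 4).IsContained G) :
    ∀ u v w w', u ≠ v → G.Adj u w → G.Adj v w → G.Adj u w' → G.Adj v w' → w = w' := by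
  intro u v w w' huv h1 h2 h3 h4
  by_contra hww
  exact h (c4_of_common G huv hww h1 h3 h2 h4)

variable {V : Type} [Fintype V] [DecidableEq V] {G : SimpleGraph V} [DecidableRel G.Adj] {d : ℕ}

/-- The second neighbourhood. -/
def N2 (G : SimpleGraph V) [DecidableRel G.Adj] (v : V) : Finset V :=
  (G.neighborFinset v).biUnion fun w => (G.neighborFinset w).erase v

theorem card_N2
    (hc : ∀ u v w w', u ≠ v → G.Adj u w → G.Adj v w → G.Adj u w' → G.Adj v w' → w = w') (v : V) :
    (N2 G v).card = ∑ w ∈ G.neighborFinset v, (G.degree w - 1) := by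
  unfold N2
  rw [Finset.card_biUnion]
  · apply Finset.sum_congr rfl
    intro w hw
    rw [SimpleGraph.mem_neighborFinset] at hw
    rw [Finset.card_erase_of_mem (by rw [SimpleGraph.mem_neighborFinset]; exact hw.symm),
      SimpleGraph.card_neighborFinset_eq_degree]
  · intro w hw w' hw' hne
    rw [SetLike.mem_coe, SimpleGraph.mem_neighborFinset] at hw hw'
    unfold Function.onFun
    rw [Finset.disjoint_left]
    intro x hx hx'
    rw [Finset.mem_erase, SimpleGraph.mem_neighborFinset] at hx hx'
    exact hne (hc v x w w' hx.1.symm hw hx.2.symm hw' hx'.2.symm)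

theorem N2_sub (v : V) : N2 G v ⊆ Finset.univ.erase v := by
  intro x hx
  unfold N2 at hx
  rw [Finset.mem_biUnion] at hx
  obtain ⟨w, _, hw⟩ := hx
  rw [Finset.mem_erase] at hw ⊢
  exact ⟨hw.1, Finset.mem_univ x⟩

theorem deg_bound
    (hc : ∀ u v w w', u ≠ v → G.Adj u w → G.Adj v w → G.Adj u w' → G.Adj v w' → w = w')
    (hd : ∀ v, d ≤ G.degree v) (v : V) :
    G.degree v * (d - 1) ≤ (N2 G v).card ∧ (N2 G v).card + 1 ≤ Fintype.card V := by
  constructor
  · rw [card_N2 hc, ← SimpleGraph.card_neighborFinset_eq_degree, ← smul_eq_mul,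
      ← Finset.sum_const]
    exact Finset.sum_le_sum fun w _ => Nat.sub_le_sub_right (hd w) 1
  · have h1 := Finset.card_le_card (N2_sub (G := G) v)
    rw [Finset.card_erase_of_mem (Finset.mem_univ v), Finset.card_univ] at h1
    have : 0 < Fintype.card V := Fintype.card_pos_iff.2 ⟨v⟩
    omega

/-- With fewer than `d ^ 2` vertices (at most `d ^ 2`, if `d` is even) the graph is regular. -/
theorem regular_of (hd2 : 2 ≤ d)
    (hc : ∀ u v w w', u ≠ v → G.Adj u w → G.Adj v w → G.Adj u w' → G.Adj v w' → w = w')
    (hd : ∀ v, d ≤ G.degree v)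
    (hn : Fintype.card V < d ^ 2 ∨ (Even d ∧ Fintype.card V ≤ d ^ 2)) (v : V) :
    G.degree v = d := by
  classical
  obtain ⟨k, rfl⟩ : ∃ k, d = k + 1 := ⟨d - 1, by omega⟩
  have hk : 1 ≤ k := by omega
  obtain ⟨h1, h2⟩ := deg_bound hc hd v
  have e1 : k + 1 - 1 = k := by omega
  rw [e1] at h1
  have h3 := hd v
  by_contra hne
  have h4 : k + 2 ≤ G.degree v := by omega
  have h5 : (k + 2) * k ≤ G.degree v * k := Nat.mul_le_mul_right k h4
  rcases hn with hn | ⟨hev, hn⟩
  · nlinarith
  · have h6 : (N2 G v).card + 1 = Fintype.card V := by nlinarith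
    have h7 : N2 G v = Finset.univ.erase v := by
      apply Finset.eq_of_subset_of_card_le (N2_sub v)
      rw [Finset.card_erase_of_mem (Finset.mem_univ v), Finset.card_univ]
      omega
    have h8 : G.degree v = k + 2 := by
      by_contra hne'
      have h9 : k + 3 ≤ G.degree v := by omega
      have h10 : (k + 3) * k ≤ G.degree v * k := Nat.mul_le_mul_right k h9
      nlinarith
    have h9 : own G v = 0 := by
      unfold own
      rw [Finset.card_eq_zero, Finset.filter_eq_empty_iff]
      intro w hw hN
      have h10 : w ∈ N2 G v := by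
        rw [h7, Finset.mem_erase]
        rw [SimpleGraph.mem_neighborFinset] at hw
        exact ⟨hw.ne', Finset.mem_univ w⟩
      unfold N2 at h10
      rw [Finset.mem_biUnion] at h10
      obtain ⟨x, hx, hxw⟩ := h10
      rw [SimpleGraph.mem_neighborFinset] at hx
      rw [Finset.mem_erase, SimpleGraph.mem_neighborFinset] at hxw
      exact hN x ⟨hx, hxw.2.symm⟩
    have h10 := own_parity' hc v
    rw [h8, h9] at h10
    obtain ⟨j, hj⟩ := hev
    omega

/-- The main theorem. -/
theorem semiplane [Nonempty V] (hd2 : 2 ≤ d) (hC : ¬ (cycleGraph 4).IsContained G)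
    (ht : Trans G)
    (hn : (∀ v, G.degree v = d) ∨ ((∀ v, d ≤ G.degree v) ∧
      (Fintype.card V < d ^ 2 ∨ (Even d ∧ Fintype.card V ≤ d ^ 2)))) :
    Even d ∧ ∃ s, 1 ≤ s ∧ s ∣ d ∧ s ^ 2 < d ∧ d - s ^ 2 ∣ s ^ 2 * (s ^ 2 - 1) ∧
      Fintype.card V + s ^ 2 = d ^ 2 := by
  have hc := c4_free hC
  have hreg : ∀ v, G.degree v = d := by
    rcases hn with h | ⟨h1, h2⟩
    · exact h
    · exact regular_of hd2 hc h1 h2
  obtain ⟨v⟩ := (inferInstance : Nonempty V)
  exact reg ⟨hreg, hc, ht, hd2⟩ v

/-! ### The function of the problem -/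

omit [Fintype V] [DecidableEq V] [DecidableRel G.Adj] in
open Classical in
theorem f_mem (n : ℕ) : ∀ G : SimpleGraph (Fin n), N73277a7f.f n ≤ G.minDegree →
    (cycleGraph 4).IsContained G := by
  have h : {k : ℕ | ∀ (G : SimpleGraph (Fin n)), G.minDegree ≥ k →
      (cycleGraph 4).IsContained G}.Nonempty := by
    refine ⟨n + 1, fun G hG => ?_⟩
    exfalso
    rcases Nat.eq_zero_or_pos n with rfl | hn
    · have : G.minDegree = 0 := by
        have h1 : IsEmpty (Fin 0) := inferInstance
        simp [SimpleGraph.minDegree]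
      omega
    · have : Nonempty (Fin n) := ⟨⟨0, hn⟩⟩
      have h1 := G.minDegree_lt_card
      rw [Fintype.card_fin] at h1
      omega
  intro G hG
  exact Nat.sInf_mem h G hG

open Classical in
/-- A graph without four-cycles, with fewer than `d ^ 2` vertices, minimum degree at least `d` odd:
the number of vertices is even. -/
theorem even_card (hd2 : 2 ≤ d) (hodd : Odd d)
    (hc : ∀ u v w w', u ≠ v → G.Adj u w → G.Adj v w → G.Adj u w' → G.Adj v w' → w = w')
    (hd : ∀ v, d ≤ G.degree v) (hn : Fintype.card V < d ^ 2) : Even (Fintype.card V) := by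
  have hreg := regular_of hd2 hc hd (Or.inl hn)
  have h1 := G.sum_degrees_eq_twice_card_edges
  simp only [hreg, Finset.sum_const, Finset.card_univ, smul_eq_mul] at h1
  have h2 : Even (Fintype.card V * d) := ⟨_, by rw [h1]; ring⟩
  rcases Nat.even_mul.1 h2 with h3 | h3
  · exact h3
  · exact absurd h3 (Nat.not_even_iff_odd.2 hodd)

open Classical in
/-- For odd `d` every graph without four-cycles with minimum degree at least `d` and `n < d ^ 2 - 1`
vertices gives a drop of the function `f` at `n`. -/
theorem drop (d n : ℕ) (hodd : Odd d) (h3 : 3 ≤ d) (hn : n + 1 < d ^ 2) (G : SimpleGraph (Fin n))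
    (hG : d ≤ G.minDegree) (hC : ¬ (cycleGraph 4).IsContained G) :
    N73277a7f.f (n + 1) < N73277a7f.f n := by
  have h1 : d < N73277a7f.f n := by
    by_contra hcon
    push Not at hcon
    exact hC (f_mem n G (hcon.trans hG))
  have hev : Even n := by
    have := even_card (G := G) (by omega) hodd (c4_free hC)
      (fun v => hG.trans (G.minDegree_le_degree v)) (by rw [Fintype.card_fin]; omega)
    rwa [Fintype.card_fin] at this
  have h2 : N73277a7f.f (n + 1) ≤ d := by
    apply Nat.sInf_le
    intro G' hG'
    by_contra hC'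
    have := even_card (G := G') (by omega) hodd (c4_free hC')
      (fun v => le_trans hG' (G'.minDegree_le_degree v)) (by rw [Fintype.card_fin]; omega)
    rw [Fintype.card_fin, Nat.even_add_one] at this
    exact this hev
  omega

end Pool.Agent.SP
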