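import Pool.Agent.Helper11_SP.Mat

/-! # The theorem for regular graphs -/

set_option autoImplicit false
set_option linter.unusedSectionVars false

namespace Pool.Agent.SP

open Matrix Finset

variable {V : Type} [Fintype V] [DecidableEq V] {G : SimpleGraph V} [DecidableRel G.Adj] {d : ℕ}

/-- The class size is at most `d`. -/
theorem mm_le (h : Sit G d) (v : V) : mm V d ≤ d := by
  have h1 : (G.adjMatrix ℝ * E G * J V) v v = d * mm V d := by
    rw [Matrix.mul_assoc, EJ h, mul_smul_comm, AJ h, smul_smul]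
    simp [J]
    ring
  have h2 : (G.adjMatrix ℝ * E G * J V) v v = ∑ x, (G.adjMatrix ℝ * E G) v x := by
    rw [Matrix.mul_apply]
    simp [J]
  have h3 : ∑ x, (G.adjMatrix ℝ * E G) v x ≤ ∑ x : V, (1 : ℝ) :=
    Finset.sum_le_sum fun x _ => AE_le h v x
  rw [← h2, h1] at h3
  simp only [Finset.sum_const, Finset.card_univ, nsmul_eq_mul, mul_one] at h3
  have hd : (2 : ℝ) ≤ d := by exact_mod_cast h.d2
  unfold mm at *
  nlinarith

theorem mm_pos (h : Sit G d) (v : V) : 1 ≤ mm V d := by
  rw [← E_row h v, ← E_self G v]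
  exact Finset.single_le_sum (fun w _ => E_nonneg G v w) (Finset.mem_univ v)

open Classical in
/-- The number of the neighbours of `v` in the class of `v`. -/
noncomputable def own (G : SimpleGraph V) [DecidableRel G.Adj] (v : V) : ℕ :=
  ((G.neighborFinset v).filter fun w => NoCommon G v w).card

theorem own_le (h : Sit G d) (v : V) : own G v ≤ 1 := by
  classical
  unfold own
  rw [Finset.card_le_one]
  intro a ha b hb
  rw [Finset.mem_filter, SimpleGraph.mem_neighborFinset] at ha hb
  exact R_nb ha.1 hb.1 (h.rtrans (Or.inr ha.2.symm) (Or.inr hb.2))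

theorem AE_diag (h : Sit G d) (v : V) : (G.adjMatrix ℝ * E G) v v = own G v := by
  classical
  rw [Matrix.mul_apply]
  unfold own
  rw [Finset.card_filter, SimpleGraph.neighborFinset_eq_filter, Finset.sum_filter]
  push_cast
  apply Finset.sum_congr rfl
  intro w _
  simp only [SimpleGraph.adjMatrix_apply, E, Matrix.of_apply]
  by_cases h1 : G.Adj v w
  · rw [if_pos h1, if_pos h1, one_mul]
    by_cases h2 : NoCommon G v w
    · have hR : R G w v := Or.inr h2.symm
      rw [if_pos h2, if_pos hR]
    · rw [if_neg h2, if_neg]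
      rintro (h3 | h3)
      · exact h1.ne h3.symm
      · exact h2 h3.symm
  · rw [if_neg h1, if_neg h1, zero_mul]

/-- The neighbours of `v` outside of the class of `v` are matched. -/
theorem own_parity'
    (hc : ∀ u v w w', u ≠ v → G.Adj u w → G.Adj v w → G.Adj u w' → G.Adj v w' → w = w') (v : V) :
    (own G v + G.degree v) % 2 = 0 := by
  classical
  have h1 : (G.neighborFinset v).card = G.degree v := SimpleGraph.card_neighborFinset_eq_degree G v
  have h2 : own G v + ((G.neighborFinset v).filter fun w => ¬ NoCommon G v w).card =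
      G.degree v := by
    unfold own
    rw [Finset.card_filter_add_card_filter_not, h1]
  set S := (G.neighborFinset v).filter fun w => ¬ NoCommon G v w with hS
  have hex : ∀ w ∈ S, ∃ x, G.Adj v x ∧ G.Adj w x := by
    intro w hw
    rw [hS, Finset.mem_filter, SimpleGraph.mem_neighborFinset] at hw
    have := hw.2
    unfold NoCommon at this
    push Not at this
    exact this
  choose f hf using hex
  have hmem : ∀ w (hw : w ∈ S), f w hw ∈ S := by
    intro w hw
    have h3 := hf w hw
    have hw' : G.Adj v w := by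
      rw [hS, Finset.mem_filter, SimpleGraph.mem_neighborFinset] at hw
      exact hw.1
    rw [hS, Finset.mem_filter, SimpleGraph.mem_neighborFinset]
    refine ⟨h3.1, fun h4 => h4 w ⟨hw', h3.2.symm⟩⟩
  have hinv : ∀ w (hw : w ∈ S), f (f w hw) (hmem w hw) = w := by
    intro w hw
    have h3 := hf w hw
    have h4 := hf (f w hw) (hmem w hw)
    have hw' : G.Adj v w := by
      rw [hS, Finset.mem_filter, SimpleGraph.mem_neighborFinset] at hw
      exact hw.1
    exact hc v (f w hw) _ w h3.1.ne h4.1 h4.2 hw' h3.2.symm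
  have h5 : ((S.card : ℕ) : ZMod 2) = 0 := by
    have h6 : ∑ w ∈ S, (1 : ZMod 2) = 0 := by
      apply Finset.sum_involution f
      · intro a ha
        decide
      · intro a ha _ hne
        have := (hf a ha).2.ne
        exact this hne.symm
      · exact hinv
    simpa using h6
  have h7 : 2 ∣ S.card := (ZMod.natCast_eq_zero_iff _ _).1 h5
  omega

theorem own_parity (h : Sit G d) (v : V) : (own G v + d) % 2 = 0 := by
  have h1 := own_parity' h.c4 v
  rw [h.deg] at h1
  exact h1

theorem own_odd (h : Sit G d) (hd : Odd d) (v : V) : own G v = 1 := by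
  have h1 := own_le h v
  have h2 := own_parity h v
  obtain ⟨k, hk⟩ := hd
  omega

theorem own_even (h : Sit G d) (hd : Even d) (v : V) : own G v = 0 := by
  have h1 := own_le h v
  have h2 := own_parity h v
  obtain ⟨k, hk⟩ := hd
  omega

/-- The first projection. -/
noncomputable def P1 (G : SimpleGraph V) (d : ℕ) : Matrix V V ℝ := 1 - (mm V d)⁻¹ • E G

/-- The second projection. -/
noncomputable def P2 (G : SimpleGraph V) (d : ℕ) : Matrix V V ℝ :=
  (mm V d)⁻¹ • E G - (Fintype.card V : ℝ)⁻¹ • J V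

theorem tr1 (h : Sit G d) (v : V) : ∃ z : ℤ,
    (G.adjMatrix ℝ * P1 G d).trace = Real.sqrt d * z := by
  have hm : mm V d ≠ 0 := by
    have := mm_pos h v
    positivity
  have hmi : (mm V d)⁻¹ * mm V d = 1 := inv_mul_cancel₀ hm
  have hP : P1 G d * P1 G d = P1 G d := by
    unfold P1
    rw [Matrix.sub_mul, Matrix.mul_sub, Matrix.mul_sub, Matrix.one_mul, Matrix.one_mul,
      Matrix.mul_one, smul_mul_assoc, mul_smul_comm, EE h, smul_smul, smul_smul, mul_assoc, hmi,
      mul_one]
    abel
  have hAP : G.adjMatrix ℝ * P1 G d = P1 G d * G.adjMatrix ℝ := by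
    unfold P1
    rw [Matrix.mul_sub, Matrix.sub_mul, Matrix.mul_one, Matrix.one_mul, mul_smul_comm,
      smul_mul_assoc, AE_comm h]
  have hAA : G.adjMatrix ℝ * G.adjMatrix ℝ * P1 G d = (d : ℝ) • P1 G d := by
    rw [h.AA]
    unfold P1
    ext i j
    have e1 := congrFun (congrFun (EE h) i) j
    have e2 := congrFun (congrFun (JE h) i) j
    simp only [Matrix.smul_apply, smul_eq_mul] at e1 e2
    rw [Matrix.mul_sub, Matrix.mul_one, mul_smul_comm, Matrix.sub_mul, Matrix.add_mul,
      smul_mul_assoc, Matrix.one_mul]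
    simp only [Matrix.sub_apply, Matrix.add_apply, Matrix.smul_apply, smul_eq_mul]
    rw [e1, e2]
    linear_combination (E G i j - J V i j) * hmi
  apply trace_sqrt (P1 G d) (G.adjMatrix ℝ * P1 G d) (d : ℝ)
  · have := h.d2
    exact_mod_cast (by omega : 0 < d)
  · exact hP
  · rw [← Matrix.mul_assoc, ← hAP, Matrix.mul_assoc, hP]
  · rw [Matrix.mul_assoc, hP]
  · calc G.adjMatrix ℝ * P1 G d * (G.adjMatrix ℝ * P1 G d)
        = G.adjMatrix ℝ * (P1 G d * G.adjMatrix ℝ) * P1 G d := by simp only [Matrix.mul_assoc]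
      _ = G.adjMatrix ℝ * G.adjMatrix ℝ * (P1 G d * P1 G d) := by
          rw [← hAP]; simp only [Matrix.mul_assoc]
      _ = (d : ℝ) • P1 G d := by rw [hP, hAA]

theorem tr2 (h : Sit G d) (v : V) (he : mm V d < d) : ∃ z : ℤ,
    (G.adjMatrix ℝ * P2 G d).trace = Real.sqrt (d - mm V d) * z := by
  have hm : mm V d ≠ 0 := by
    have := mm_pos h v
    positivity
  have hmi : (mm V d)⁻¹ * mm V d = 1 := inv_mul_cancel₀ hm
  have hn : (Fintype.card V : ℝ) ≠ 0 := by
    have : 0 < Fintype.card V := Fintype.card_pos_iff.2 ⟨v⟩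
    positivity
  have hni : (Fintype.card V : ℝ)⁻¹ * Fintype.card V = 1 := inv_mul_cancel₀ hn
  have hP : P2 G d * P2 G d = P2 G d := by
    unfold P2
    ext i j
    have e1 := congrFun (congrFun (EE h) i) j
    have e2 := congrFun (congrFun (JE h) i) j
    have e3 := congrFun (congrFun (EJ h) i) j
    have e4 := congrFun (congrFun (JJ (V := V)) i) j
    simp only [Matrix.smul_apply, smul_eq_mul] at e1 e2 e3 e4
    rw [Matrix.mul_sub, Matrix.sub_mul, Matrix.sub_mul]
    simp only [smul_mul_assoc, mul_smul_comm, Matrix.sub_apply, Matrix.smul_apply, smul_eq_mul]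
    rw [e1, e2, e3, e4]
    linear_combination ((mm V d)⁻¹ * E G i j - 2 * (Fintype.card V : ℝ)⁻¹ * J V i j) * hmi +
      ((Fintype.card V : ℝ)⁻¹ * J V i j) * hni
  have hAP : G.adjMatrix ℝ * P2 G d = P2 G d * G.adjMatrix ℝ := by
    unfold P2
    rw [Matrix.mul_sub, Matrix.sub_mul, mul_smul_comm, mul_smul_comm, smul_mul_assoc,
      smul_mul_assoc, AE_comm h, AJ h, JA h]
  have hAA : G.adjMatrix ℝ * G.adjMatrix ℝ * P2 G d = ((d : ℝ) - mm V d) • P2 G d := by
    rw [h.AA]
    unfold P2
    ext i j
    have e1 := congrFun (congrFun (EE h) i) j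
    have e2 := congrFun (congrFun (JE h) i) j
    have e3 := congrFun (congrFun (EJ h) i) j
    have e4 := congrFun (congrFun (JJ (V := V)) i) j
    simp only [Matrix.smul_apply, smul_eq_mul] at e1 e2 e3 e4
    rw [Matrix.mul_sub, Matrix.sub_mul, Matrix.sub_mul, Matrix.add_mul, Matrix.add_mul]
    simp only [smul_mul_assoc, mul_smul_comm, Matrix.sub_apply, Matrix.add_apply,
      Matrix.smul_apply, smul_eq_mul, Matrix.one_mul]
    rw [e1, e2, e3, e4]
    linear_combination (J V i j) * hmi - (J V i j) * hni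
  apply trace_sqrt (P2 G d) (G.adjMatrix ℝ * P2 G d) ((d : ℝ) - mm V d)
  · linarith
  · exact hP
  · rw [← Matrix.mul_assoc, ← hAP, Matrix.mul_assoc, hP]
  · rw [Matrix.mul_assoc, hP]
  · calc G.adjMatrix ℝ * P2 G d * (G.adjMatrix ℝ * P2 G d)
        = G.adjMatrix ℝ * (P2 G d * G.adjMatrix ℝ) * P2 G d := by simp only [Matrix.mul_assoc]
      _ = G.adjMatrix ℝ * G.adjMatrix ℝ * (P2 G d * P2 G d) := by
          rw [← hAP]; simp only [Matrix.mul_assoc]
      _ = ((d : ℝ) - mm V d) • P2 G d := by rw [hP, hAA]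

theorem tr2' (h : Sit G d) (v : V) (he : mm V d = d) :
    (G.adjMatrix ℝ * P2 G d).trace = 0 := by
  have hm : mm V d ≠ 0 := by
    have := mm_pos h v
    positivity
  have hmi : (mm V d)⁻¹ * mm V d = 1 := inv_mul_cancel₀ hm
  have hn : (Fintype.card V : ℝ) ≠ 0 := by
    have : 0 < Fintype.card V := Fintype.card_pos_iff.2 ⟨v⟩
    positivity
  have hni : (Fintype.card V : ℝ)⁻¹ * Fintype.card V = 1 := inv_mul_cancel₀ hn
  have hAP : G.adjMatrix ℝ * P2 G d = P2 G d * G.adjMatrix ℝ := by
    unfold P2
    rw [Matrix.mul_sub, Matrix.sub_mul, mul_smul_comm, mul_smul_comm, smul_mul_assoc,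
      smul_mul_assoc, AE_comm h, AJ h, JA h]
  have hAA : G.adjMatrix ℝ * G.adjMatrix ℝ * P2 G d = ((d : ℝ) - mm V d) • P2 G d := by
    rw [h.AA]
    unfold P2
    ext i j
    have e1 := congrFun (congrFun (EE h) i) j
    have e2 := congrFun (congrFun (JE h) i) j
    have e3 := congrFun (congrFun (EJ h) i) j
    have e4 := congrFun (congrFun (JJ (V := V)) i) j
    simp only [Matrix.smul_apply, smul_eq_mul] at e1 e2 e3 e4
    rw [Matrix.mul_sub, Matrix.sub_mul, Matrix.sub_mul, Matrix.add_mul, Matrix.add_mul]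
    simp only [smul_mul_assoc, mul_smul_comm, Matrix.sub_apply, Matrix.add_apply,
      Matrix.smul_apply, smul_eq_mul, Matrix.one_mul]
    rw [e1, e2, e3, e4]
    linear_combination (J V i j) * hmi - (J V i j) * hni
  have h0 : G.adjMatrix ℝ * P2 G d * (G.adjMatrix ℝ * P2 G d) = 0 := by
    calc G.adjMatrix ℝ * P2 G d * (G.adjMatrix ℝ * P2 G d)
        = P2 G d * G.adjMatrix ℝ * (G.adjMatrix ℝ * P2 G d) := by rw [hAP]
      _ = P2 G d * (G.adjMatrix ℝ * G.adjMatrix ℝ * P2 G d) := by simp only [Matrix.mul_assoc]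
      _ = 0 := by rw [hAA, he, sub_self, zero_smul, Matrix.mul_zero]
  have h1 : IsNilpotent (G.adjMatrix ℝ * P2 G d) := ⟨2, by rw [pow_two, h0]⟩
  exact (Matrix.isNilpotent_trace_of_isNilpotent h1).eq_zero

theorem trAE (h : Sit G d) : (G.adjMatrix ℝ * E G).trace = ((∑ v, own G v : ℕ) : ℝ) := by
  unfold Matrix.trace
  simp only [Matrix.diag_apply, AE_diag h]
  push_cast
  rfl

theorem trAP1 (h : Sit G d) (v : V) :
    mm V d * (G.adjMatrix ℝ * P1 G d).trace = -((∑ v, own G v : ℕ) : ℝ) := by
  have hm : mm V d ≠ 0 := by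
    have := mm_pos h v
    positivity
  unfold P1
  rw [Matrix.mul_sub, Matrix.mul_one, Matrix.trace_sub, mul_smul_comm, Matrix.trace_smul, trAE h,
    SimpleGraph.trace_adjMatrix, smul_eq_mul, zero_sub, mul_neg, ← mul_assoc, mul_inv_cancel₀ hm,
    one_mul]

theorem trAP2 (h : Sit G d) (v : V) :
    mm V d * (G.adjMatrix ℝ * P2 G d).trace = ((∑ v, own G v : ℕ) : ℝ) - mm V d * d := by
  have hm : mm V d ≠ 0 := by
    have := mm_pos h v
    positivity
  have hn : (Fintype.card V : ℝ) ≠ 0 := by
    have : 0 < Fintype.card V := Fintype.card_pos_iff.2 ⟨v⟩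
    positivity
  have hJ : (J V).trace = (Fintype.card V : ℝ) := by
    unfold Matrix.trace
    simp [J]
  unfold P2
  rw [Matrix.mul_sub, Matrix.trace_sub, mul_smul_comm, mul_smul_comm, Matrix.trace_smul,
    Matrix.trace_smul, trAE h, AJ h, Matrix.trace_smul, hJ]
  simp only [smul_eq_mul]
  field_simp

theorem P1_idem (h : Sit G d) (v : V) : P1 G d * P1 G d = P1 G d := by
  have hm : mm V d ≠ 0 := by
    have := mm_pos h v
    positivity
  have hmi : (mm V d)⁻¹ * mm V d = 1 := inv_mul_cancel₀ hm
  unfold P1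
  rw [Matrix.sub_mul, Matrix.mul_sub, Matrix.mul_sub, Matrix.one_mul, Matrix.one_mul,
    Matrix.mul_one, smul_mul_assoc, mul_smul_comm, EE h, smul_smul, smul_smul, mul_assoc, hmi,
    mul_one]
  abel

/-- The class size divides the number of vertices. -/
theorem dvd_card (h : Sit G d) (v : V) (m : ℕ) (hm : mm V d = m) : m ∣ Fintype.card V := by
  have hm0 : (m : ℝ) ≠ 0 := by
    rw [← hm]
    have := mm_pos h v
    positivity
  obtain ⟨k, hk⟩ := trace_idem _ (P1_idem h v)
  have hE : (E G).trace = (Fintype.card V : ℝ) := by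
    unfold Matrix.trace
    simp [E_self]
  unfold P1 at hk
  rw [Matrix.trace_sub, Matrix.trace_one, Matrix.trace_smul, hE, hm, smul_eq_mul] at hk
  have h1 : (Fintype.card V : ℝ) + m * k = m * Fintype.card V := by
    rw [← hk]
    field_simp
    ring
  have h2 : Fintype.card V + m * k = m * Fintype.card V := by exact_mod_cast h1
  exact (Nat.dvd_add_left (Dvd.intro _ rfl)).1 ⟨_, h2⟩

/-- The theorem for regular graphs. -/
theorem reg (h : Sit G d) (v : V) :
    Even d ∧ ∃ s, 1 ≤ s ∧ s ∣ d ∧ s ^ 2 < d ∧ d - s ^ 2 ∣ s ^ 2 * (s ^ 2 - 1) ∧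
      Fintype.card V + s ^ 2 = d ^ 2 := by
  have hd2 := h.d2
  -- the class size
  obtain ⟨m, hm⟩ : ∃ m : ℕ, m + d ^ 2 = Fintype.card V + d := by
    refine ⟨Fintype.card V + d - d ^ 2, ?_⟩
    have h1 := mm_pos h v
    unfold mm at h1
    have h2 : d ^ 2 + 1 ≤ Fintype.card V + d := by
      have : (d : ℝ) ^ 2 + 1 ≤ Fintype.card V + d := by linarith
      exact_mod_cast this
    omega
  have hmm : mm V d = m := by
    have h1 : (m : ℝ) + d ^ 2 = Fintype.card V + d := by exact_mod_cast hm
    unfold mm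
    linarith
  have hm1 : 1 ≤ m := by
    have h1 := mm_pos h v
    rw [hmm] at h1
    exact_mod_cast h1
  have hmd : m ≤ d := by
    have h1 := mm_le h v
    rw [hmm] at h1
    exact_mod_cast h1
  set T : ℕ := ∑ v, own G v with hT
  have t1 := trAP1 h v
  have t2 := trAP2 h v
  rw [hmm] at t1 t2
  rw [← hT] at t1 t2
  have hs : ((m : ℝ)) ≠ 0 := by positivity
  -- handshake
  have hand : 2 ∣ Fintype.card V * d := by
    have h1 := G.sum_degrees_eq_twice_card_edges
    simp only [h.deg, Finset.sum_const, Finset.card_univ, smul_eq_mul] at h1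
    exact ⟨_, h1⟩
  obtain ⟨z1, hz1⟩ := tr1 h v
  rcases Nat.lt_or_ge m d with hlt | hge
  · -- m < d
    obtain ⟨e, he⟩ : ∃ e, d = m + e := Nat.exists_eq_add_of_le hmd
    have he1 : 1 ≤ e := by omega
    obtain ⟨z2, hz2⟩ := tr2 h v (by rw [hmm]; exact_mod_cast hlt)
    have hde : (d : ℝ) - mm V d = e := by
      rw [hmm, he]; push_cast; ring
    rw [hde] at hz2
    rw [hz2] at t2
    -- square of t2
    have q2 : ((T : ℤ) - m * d) ^ 2 = (e : ℤ) * ((m : ℤ) * z2) ^ 2 := by
      have h1 : ((T : ℝ) - m * d) ^ 2 = (e : ℝ) * ((m : ℝ) * z2) ^ 2 := by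
        rw [← t2]
        have h3 : Real.sqrt e ^ 2 = e := Real.sq_sqrt (Nat.cast_nonneg e)
        linear_combination ((m : ℝ) ^ 2 * (z2 : ℝ) ^ 2) * h3
      exact_mod_cast h1
    rcases Nat.even_or_odd d with hev | hodd
    · -- d even
      have hT0 : T = 0 := by
        rw [hT]
        exact Finset.sum_eq_zero fun v _ => own_even h hev v
      rw [hT0] at q2
      have q3 : (d : ℤ) ^ 2 = (e : ℤ) * z2 ^ 2 := by
        have hm' : ((m : ℤ)) ^ 2 ≠ 0 := by positivity
        apply mul_left_cancel₀ hm'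
        push_cast at q2
        linear_combination q2
      obtain ⟨s, hs1, hs2⟩ := sq_of e (d : ℤ) z2 (by positivity) q3
      have hs0 : 1 ≤ s := by
        rcases Nat.eq_zero_or_pos s with h0 | h0
        · rw [h0] at hs1
          simp at hs1
          omega
        · exact h0
      refine ⟨hev, s, hs0, ?_, ?_, ?_, ?_⟩
      · rw [Int.natAbs_natCast] at hs2
        exact ⟨_, hs2⟩
      · rw [← hs1]
        omega
      · have h20 : d - s ^ 2 = m := by
          rw [← hs1]
          omega
        have h21 := dvd_card h v m hmm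
        have h22 : Fintype.card V = m * (m + 2 * s ^ 2) + s ^ 2 * (s ^ 2 - 1) := by
          have h23 : Fintype.card V + s ^ 2 = d ^ 2 := by
            rw [← hs1]
            omega
          obtain ⟨j, hj⟩ : ∃ j, s ^ 2 = j + 1 := ⟨s ^ 2 - 1, by
            have : 1 ≤ s ^ 2 := Nat.one_le_iff_ne_zero.2 (by positivity)
            omega⟩
          rw [he, hs1, hj] at h23
          rw [hj]
          have h24 : j + 1 - 1 = j := by omega
          rw [h24]
          nlinarith
        rw [h22] at h21
        rw [h20]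
        exact (Nat.dvd_add_right (Dvd.intro _ rfl)).1 h21
      · rw [← hs1]
        omega
    · -- d odd
      exfalso
      have hTN : T = Fintype.card V := by
        rw [hT, Finset.sum_congr rfl fun v _ => own_odd h hodd v]
        simp
      rw [hTN] at t1 q2
      have hNpos : 0 < Fintype.card V := Fintype.card_pos_iff.2 ⟨v⟩
      rw [hz1] at t1
      have q1 : ((Fintype.card V : ℕ) : ℤ) ^ 2 = (d : ℤ) * ((m : ℤ) * z1) ^ 2 := by
        have h1 : (Fintype.card V : ℝ) ^ 2 = (d : ℝ) * ((m : ℝ) * z1) ^ 2 := by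
          have h3 : Real.sqrt d ^ 2 = d := Real.sq_sqrt (Nat.cast_nonneg d)
          have h4 : (Fintype.card V : ℝ) ^ 2 = ((m : ℝ) * (Real.sqrt d * z1)) ^ 2 := by
            rw [t1]; ring
          rw [h4]
          linear_combination ((m : ℝ) ^ 2 * (z1 : ℝ) ^ 2) * h3
        exact_mod_cast h1
      obtain ⟨w, hw1, hw2⟩ := sq_of d _ _ (by positivity) q1
      rw [Int.natAbs_natCast] at hw2
      have q4 : (((d : ℤ) - 1) * e) ^ 2 = (e : ℤ) * ((m : ℤ) * z2) ^ 2 := by
        rw [← q2]
        have h5 : (m : ℤ) + (d : ℤ) ^ 2 = (Fintype.card V : ℤ) + d := by exact_mod_cast hm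
        have h6 : (d : ℤ) = m + e := by exact_mod_cast he
        have h7 : ((d : ℤ) - 1) * e = (Fintype.card V : ℤ) - m * d := by
          have h8 : (e : ℤ) = d - m := by linarith
          rw [h8]
          linear_combination h5
        rw [h7]
      obtain ⟨s, hs1, hs2⟩ := sq_of e _ _ (by
        have h9 : (0 : ℤ) < (d : ℤ) - 1 := by
          have : (2 : ℤ) ≤ d := by exact_mod_cast hd2
          linarith
        have h10 : (0 : ℤ) < e := by exact_mod_cast he1
        positivity) q4
      have hs0 : 0 < s := by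
        rcases Nat.eq_zero_or_pos s with h0 | h0
        · rw [h0] at hs1
          simp at hs1
          omega
        · exact h0
      -- (d - 1) s = m |z2|
      have q5 : (d - 1) * s = m * z2.natAbs := by
        have h11 : (((d : ℤ) - 1) * e).natAbs = (d - 1) * e := by
          have : ((d : ℤ) - 1) * e = (((d - 1) * e : ℕ) : ℤ) := by
            push_cast [Nat.cast_sub (by omega : 1 ≤ d)]
            ring
          rw [this, Int.natAbs_natCast]
        rw [h11, Int.natAbs_mul, Int.natAbs_natCast] at hs2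
        have h12 : s * ((d - 1) * s) = s * (m * z2.natAbs) := by
          rw [← hs2]
          conv_rhs => rw [hs1]
          ring
        exact Nat.eq_of_mul_eq_mul_left hs0 h12
      have hws : s < w := by
        have : s ^ 2 < w ^ 2 := by
          rw [← hs1, ← hw1]
          omega
        exact lt_of_pow_lt_pow_left₀ 2 (Nat.zero_le w) this
      have hm2 : m = w ^ 2 - s ^ 2 := by
        rw [← hs1, ← hw1]
        omega
      apply no_sol w s hs0 hws
      · -- w ∣ s ^ 2
        have h13 : w ∣ Fintype.card V := ⟨_, hw2⟩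
        have h14 : Fintype.card V + s ^ 2 = w * (w * w ^ 2) := by
          have : Fintype.card V + e = d ^ 2 := by omega
          rw [← hs1, this, hw1]
          ring
        have h15 : w ∣ Fintype.card V + s ^ 2 := ⟨_, h14⟩
        exact (Nat.dvd_add_right h13).1 h15
      · -- m ∣ s (s ^ 2 - 1)
        rw [← hm2]
        have h16 : m ∣ (d - 1) * s := ⟨_, q5⟩
        have h17 : (d - 1) * s = m * s + s * (s ^ 2 - 1) := by
          have h18 : d - 1 = m + (s ^ 2 - 1) := by
            have : 1 ≤ s ^ 2 := Nat.one_le_iff_ne_zero.2 (by positivity)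
            omega
          rw [h18]
          ring
        rw [h17] at h16
        exact (Nat.dvd_add_right (Dvd.intro _ rfl)).1 h16
  · -- m = d
    exfalso
    have hmd' : m = d := le_antisymm hmd hge
    have h1 := tr2' h v (by rw [hmm, hmd'])
    rw [h1, mul_zero] at t2
    have hTd : T = d * d := by
      have : (T : ℝ) = (d : ℝ) * d := by
        rw [hmd'] at t2
        linarith
      exact_mod_cast this
    have hN : Fintype.card V = d ^ 2 := by omega
    rcases Nat.even_or_odd d with hev | hodd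
    · have hT0 : T = 0 := by
        rw [hT]
        exact Finset.sum_eq_zero fun v _ => own_even h hev v
      rw [hT0] at hTd
      nlinarith
    · rw [hN] at hand
      have : Odd (d ^ 2 * d) := (hodd.pow).mul hodd
      rw [← Nat.not_even_iff_odd] at this
      exact this (even_iff_two_dvd.2 hand)

end Pool.Agent.SP
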