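import Pool.Agent.Helper11_SP.Tr

/-! # The matrices of a regular graph without four-cycles in which having no common neighbour is
transitive -/

set_option autoImplicit false
set_option linter.unusedSectionVars false

namespace Pool.Agent.SP

open Matrix Finset

/-- `u` and `v` have no common neighbour. -/
def NoCommon {V : Type} (G : SimpleGraph V) (u v : V) : Prop := ∀ w, ¬ (G.Adj u w ∧ G.Adj v w)

/-- Having no common neighbour is transitive. -/
def Trans {V : Type} (G : SimpleGraph V) : Prop :=
  ∀ u v w, u ≠ w → NoCommon G u v → NoCommon G v w → NoCommon G u w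

theorem NoCommon.symm {V : Type} {G : SimpleGraph V} {u v : V} (h : NoCommon G u v) :
    NoCommon G v u := fun w hw => h w ⟨hw.2, hw.1⟩

/-- The situation: `d`-regular, no four-cycles, transitivity. -/
structure Sit {V : Type} [Fintype V] (G : SimpleGraph V) [DecidableRel G.Adj] (d : ℕ) : Prop where
  deg : ∀ v, G.degree v = d
  c4 : ∀ u v w w', u ≠ v → G.Adj u w → G.Adj v w → G.Adj u w' → G.Adj v w' → w = w'
  tr : Trans G
  d2 : 2 ≤ d

variable {V : Type} [Fintype V] [DecidableEq V] {G : SimpleGraph V} [DecidableRel G.Adj] {d : ℕ}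

/-- the class relation -/
def R (G : SimpleGraph V) (u v : V) : Prop := u = v ∨ NoCommon G u v

omit [Fintype V] [DecidableEq V] in
theorem R_self (G : SimpleGraph V) (u : V) : R G u u := Or.inl rfl

omit [Fintype V] [DecidableEq V] in
theorem R.symm {G : SimpleGraph V} {u v : V} (h : R G u v) : R G v u := by
  rcases h with h | h
  · exact Or.inl h.symm
  · exact Or.inr h.symm

omit [DecidableEq V] in
theorem Sit.rtrans (h : Sit G d) {u v w : V} (h1 : R G u v) (h2 : R G v w) : R G u w := by
  rcases h1 with rfl | h1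
  · exact h2
  · rcases h2 with rfl | h2
    · exact Or.inr h1
    · by_cases huw : u = w
      · exact Or.inl huw
      · exact Or.inr (h.tr u v w huw h1 h2)

/-- Two neighbours of one vertex in one class are equal. -/
theorem R_nb {G : SimpleGraph V} {v w w' : V} (h1 : G.Adj v w) (h2 : G.Adj v w')
    (h : R G w w') : w = w' := by
  rcases h with h | h
  · exact h
  · exact absurd ⟨h1.symm, h2.symm⟩ (h v)

open Classical in
/-- the class matrix -/
noncomputable def E (G : SimpleGraph V) : Matrix V V ℝ :=
  Matrix.of fun u v => if R G u v then 1 else 0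

/-- the all ones matrix -/
def J (V : Type) : Matrix V V ℝ := Matrix.of fun _ _ => 1

omit [Fintype V] [DecidableEq V] in
theorem E_symm (G : SimpleGraph V) (u v : V) : E G u v = E G v u := by
  classical
  unfold E
  simp only [Matrix.of_apply]
  by_cases h : R G u v
  · rw [if_pos h, if_pos h.symm]
  · rw [if_neg h, if_neg fun h' => h h'.symm]

omit [Fintype V] [DecidableEq V] in
theorem E_nonneg (G : SimpleGraph V) (u v : V) : 0 ≤ E G u v := by
  classical
  unfold E
  simp only [Matrix.of_apply]
  split_ifs <;> norm_num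

omit [Fintype V] [DecidableEq V] in
theorem E_self (G : SimpleGraph V) (u : V) : E G u u = 1 := by
  classical
  unfold E
  simp only [Matrix.of_apply]
  rw [if_pos (R_self G u)]

theorem Sit.AA (h : Sit G d) :
    G.adjMatrix ℝ * G.adjMatrix ℝ = (d : ℝ) • (1 : Matrix V V ℝ) + J V - E G := by
  classical
  ext u v
  simp only [Matrix.sub_apply, Matrix.add_apply, Matrix.smul_apply, smul_eq_mul, J, E,
    Matrix.of_apply]
  by_cases huv : u = v
  · subst huv
    rw [SimpleGraph.adjMatrix_mul_self_apply_self, h.deg, Matrix.one_apply_eq, if_pos (R_self G u)]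
    ring
  · rw [Matrix.one_apply_ne huv, Matrix.mul_apply]
    by_cases hR : R G u v
    · rw [if_pos hR]
      have hN : NoCommon G u v := by
        rcases hR with h' | h'
        · exact absurd h' huv
        · exact h'
      rw [Finset.sum_eq_zero]
      · ring
      · intro w _
        simp only [SimpleGraph.adjMatrix_apply]
        by_cases h1 : G.Adj u w
        · have h2 : ¬ G.Adj w v := fun h3 => hN w ⟨h1, h3.symm⟩
          rw [if_neg h2, mul_zero]
        · rw [if_neg h1, zero_mul]
    · rw [if_neg hR]
      have hN : ¬ NoCommon G u v := fun h' => hR (Or.inr h')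
      unfold NoCommon at hN
      push Not at hN
      obtain ⟨w, hw1, hw2⟩ := hN
      rw [Finset.sum_eq_single w]
      · simp only [SimpleGraph.adjMatrix_apply]
        rw [if_pos hw1, if_pos hw2.symm]
        ring
      · intro w' _ hw'
        simp only [SimpleGraph.adjMatrix_apply]
        by_cases h1 : G.Adj u w'
        · have h2 : ¬ G.Adj w' v := fun h3 => hw' (h.c4 u v w' w huv h1 h3.symm hw1 hw2)
          rw [if_neg h2, mul_zero]
        · rw [if_neg h1, zero_mul]
      · intro h'
        exact absurd (Finset.mem_univ w) h'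

theorem AJ (h : Sit G d) : G.adjMatrix ℝ * J V = (d : ℝ) • J V := by
  ext u v
  rw [Matrix.mul_apply]
  simp only [J, Matrix.of_apply, mul_one, Matrix.smul_apply, smul_eq_mul]
  rw [← h.deg u, ← SimpleGraph.card_neighborFinset_eq_degree,
    SimpleGraph.neighborFinset_eq_filter]
  simp [SimpleGraph.adjMatrix_apply]

theorem JA (h : Sit G d) : J V * G.adjMatrix ℝ = (d : ℝ) • J V := by
  ext u v
  rw [Matrix.mul_apply]
  simp only [J, Matrix.of_apply, one_mul, Matrix.smul_apply, smul_eq_mul, mul_one]
  rw [← h.deg v]
  have : ∀ x, G.adjMatrix ℝ x v = G.adjMatrix ℝ v x := by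
    intro x
    simp only [SimpleGraph.adjMatrix_apply, G.adj_comm]
  simp only [this]
  rw [← SimpleGraph.card_neighborFinset_eq_degree, SimpleGraph.neighborFinset_eq_filter]
  simp [SimpleGraph.adjMatrix_apply]

omit [DecidableEq V] in
theorem JJ : J V * J V = (Fintype.card V : ℝ) • J V := by
  ext u v
  rw [Matrix.mul_apply]
  simp [J]

/-- the class size as a real number -/
noncomputable def mm (V : Type) [Fintype V] (d : ℕ) : ℝ := Fintype.card V + d - d ^ 2

theorem EJ (h : Sit G d) : E G * J V = mm V d • J V := by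
  have h1 : E G = (d : ℝ) • (1 : Matrix V V ℝ) + J V - G.adjMatrix ℝ * G.adjMatrix ℝ := by
    rw [h.AA]; abel
  rw [h1, Matrix.sub_mul, Matrix.add_mul, Matrix.mul_assoc, AJ h, Matrix.mul_smul, AJ h, JJ,
    smul_mul_assoc, Matrix.one_mul, smul_smul, ← add_smul, ← sub_smul]
  congr 1
  unfold mm
  ring

theorem JE (h : Sit G d) : J V * E G = mm V d • J V := by
  have h1 : E G = (d : ℝ) • (1 : Matrix V V ℝ) + J V - G.adjMatrix ℝ * G.adjMatrix ℝ := by
    rw [h.AA]; abel
  rw [h1, Matrix.mul_sub, Matrix.mul_add, ← Matrix.mul_assoc, JA h, Matrix.smul_mul, JA h, JJ,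
    mul_smul_comm, Matrix.mul_one, smul_smul, ← add_smul, ← sub_smul]
  congr 1
  unfold mm
  ring

theorem AE_comm (h : Sit G d) : G.adjMatrix ℝ * E G = E G * G.adjMatrix ℝ := by
  have h1 : E G = (d : ℝ) • (1 : Matrix V V ℝ) + J V - G.adjMatrix ℝ * G.adjMatrix ℝ := by
    rw [h.AA]; abel
  rw [h1, Matrix.mul_sub, Matrix.mul_add, Matrix.sub_mul, Matrix.add_mul, AJ h, JA h,
    Matrix.mul_assoc, mul_smul_comm, smul_mul_assoc, Matrix.mul_one, Matrix.one_mul]

theorem E_row (h : Sit G d) (u : V) : ∑ v, E G u v = mm V d := by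
  have h1 := congrFun (congrFun (EJ h) u) u
  rw [Matrix.mul_apply] at h1
  simpa [J] using h1

theorem EE (h : Sit G d) : E G * E G = mm V d • E G := by
  classical
  ext u v
  rw [Matrix.mul_apply, Matrix.smul_apply, smul_eq_mul]
  by_cases hR : R G u v
  · have h1 : ∀ w, E G u w * E G w v = E G u w := by
      intro w
      by_cases h2 : R G u w
      · have h3 : R G w v := h.rtrans h2.symm hR
        simp only [E, Matrix.of_apply]
        rw [if_pos h2, if_pos h3, mul_one]
      · simp only [E, Matrix.of_apply]
        rw [if_neg h2, zero_mul]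
    simp only [h1]
    rw [E_row h u]
    simp only [E, Matrix.of_apply]
    rw [if_pos hR, mul_one]
  · have h1 : ∀ w, E G u w * E G w v = 0 := by
      intro w
      by_cases h2 : R G u w
      · have h3 : ¬ R G w v := fun h3 => hR (h.rtrans h2 h3)
        simp only [E, Matrix.of_apply]
        rw [if_neg h3, mul_zero]
      · simp only [E, Matrix.of_apply]
        rw [if_neg h2, zero_mul]
    simp only [h1, Finset.sum_const_zero]
    simp only [E, Matrix.of_apply]
    rw [if_neg hR, mul_zero]

/-- Every vertex has at most one neighbour in each class. -/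
theorem AE_le (h : Sit G d) (v x : V) : (G.adjMatrix ℝ * E G) v x ≤ 1 := by
  classical
  rw [Matrix.mul_apply]
  have h1 : ∀ w, G.adjMatrix ℝ v w * E G w x = if G.Adj v w ∧ R G w x then 1 else 0 := by
    intro w
    simp only [SimpleGraph.adjMatrix_apply, E, Matrix.of_apply]
    by_cases h2 : G.Adj v w <;> by_cases h3 : R G w x <;> simp [h2, h3]
  simp only [h1]
  by_cases hex : ∃ w, G.Adj v w ∧ R G w x
  · obtain ⟨w, hw1, hw2⟩ := hex
    rw [Finset.sum_eq_single w]
    · split_ifs <;> norm_num
    · intro w' _ hne
      rw [if_neg]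
      rintro ⟨h2, h3⟩
      apply hne
      exact R_nb h2 hw1 (h.rtrans h3 hw2.symm)
    · intro h'
      exact absurd (Finset.mem_univ w) h'
  · rw [Finset.sum_eq_zero]
    · norm_num
    · intro w _
      rw [if_neg]
      intro h'
      exact hex ⟨w, h'⟩

end Pool.Agent.SP
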