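import Mathlib

/-! # Traces of matrices whose square is a multiple of an idempotent matrix -/

set_option autoImplicit false

namespace Pool.Agent.SP

open Matrix Finset

/-- The trace of an idempotent real matrix is a natural number. -/
theorem trace_idem {V : Type} [Fintype V] [DecidableEq V] (P : Matrix V V ℝ) (h : P * P = P) :
    ∃ k : ℕ, P.trace = k := by
  have h1 : IsIdempotentElem (Matrix.toLin' P) := by
    unfold IsIdempotentElem
    have := Matrix.toLin'_mul P P
    rw [h] at this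
    exact this.symm
  have h2 := (LinearMap.isProj_range_iff_isIdempotentElem (Matrix.toLin' P)).2 h1
  refine ⟨Module.finrank ℝ (LinearMap.range (Matrix.toLin' P)), ?_⟩
  have h3 := h2.trace
  rw [Matrix.trace_toLin'_eq] at h3
  exact h3

/-- If `N = P N = N P`, `N ^ 2 = c P`, `P` idempotent, then the trace of `N` is an integer times
`√c`. -/
theorem trace_sqrt {V : Type} [Fintype V] [DecidableEq V] (P N : Matrix V V ℝ) (c : ℝ)
    (hc : 0 < c) (h1 : P * P = P) (h2 : P * N = N) (h3 : N * P = N) (h4 : N * N = c • P) :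
    ∃ z : ℤ, N.trace = Real.sqrt c * z := by
  have hs : 0 < Real.sqrt c := Real.sqrt_pos.2 hc
  have hss : Real.sqrt c * Real.sqrt c = c := Real.mul_self_sqrt hc.le
  obtain ⟨p, hp⟩ := trace_idem P h1
  have hQ : ((1 / 2 : ℝ) • (P + (Real.sqrt c)⁻¹ • N)) * ((1 / 2 : ℝ) • (P + (Real.sqrt c)⁻¹ • N)) =
      (1 / 2 : ℝ) • (P + (Real.sqrt c)⁻¹ • N) := by
    simp only [smul_mul_assoc, mul_smul_comm, Matrix.add_mul, Matrix.mul_add, h1, h2, h3, h4,
      smul_smul, smul_add]
    have e1 : (1 / 2 * (1 / 2 * (Real.sqrt c)⁻¹ * (Real.sqrt c)⁻¹ * c) : ℝ) = 1 / 4 := by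
      field_simp
      nlinarith [hss]
    ext i j
    simp only [Matrix.add_apply, Matrix.smul_apply, smul_eq_mul]
    have e2 : (Real.sqrt c)⁻¹ * (Real.sqrt c)⁻¹ * c = 1 := by
      field_simp
      nlinarith [hss]
    linear_combination (1 / 4 * P i j) * e2
  obtain ⟨q, hq⟩ := trace_idem _ hQ
  rw [Matrix.trace_smul, Matrix.trace_add, Matrix.trace_smul, hp] at hq
  refine ⟨2 * (q : ℤ) - p, ?_⟩
  push_cast
  simp only [smul_eq_mul] at hq
  have h5 : (Real.sqrt c)⁻¹ * N.trace = 2 * q - p := by linarith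
  have h6 : Real.sqrt c * ((Real.sqrt c)⁻¹ * N.trace) = N.trace := by
    rw [← mul_assoc, mul_inv_cancel₀ hs.ne', one_mul]
  rw [← h6, h5]

/-- If an integer is an integer times `√d`, and it is not zero, then `d` is a square. -/
theorem sq_of (d : ℕ) (a z : ℤ) (ha : a ≠ 0) (h : a ^ 2 = d * z ^ 2) :
    ∃ w : ℕ, d = w ^ 2 ∧ a.natAbs = w * z.natAbs := by
  have hz : z ≠ 0 := by
    rintro rfl
    apply ha
    have : a ^ 2 = 0 := by rw [h]; ring
    exact pow_eq_zero_iff (two_ne_zero) |>.1 this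
  have h1 : a.natAbs ^ 2 = d * z.natAbs ^ 2 := by
    zify
    rw [sq_abs, sq_abs]
    exact h
  have h2 : z.natAbs ∣ a.natAbs := by
    rw [← Nat.pow_dvd_pow_iff (two_ne_zero)]
    exact ⟨d, by rw [h1]; ring⟩
  obtain ⟨w, hw⟩ := h2
  have hz' : 0 < z.natAbs := Int.natAbs_pos.2 hz
  refine ⟨w, ?_, by rw [hw]; ring⟩
  rw [hw] at h1
  have h3 : z.natAbs ^ 2 * w ^ 2 = z.natAbs ^ 2 * d := by
    rw [← mul_pow, h1]; ring
  exact (Nat.eq_of_mul_eq_mul_left (pow_pos hz' 2) h3).symm

/-- The number theory. -/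
theorem no_sol (w s : ℕ) (hs : 0 < s) (hsw : s < w) (h1 : w ∣ s ^ 2)
    (h2 : w ^ 2 - s ^ 2 ∣ s * (s ^ 2 - 1)) : False := by
  rcases Nat.lt_or_ge s 2 with h | h
  · have : s = 1 := by omega
    subst this
    have : w ∣ 1 := by simpa using h1
    have := Nat.le_of_dvd one_pos this
    omega
  · have hg : 0 < Nat.gcd w s := Nat.gcd_pos_of_pos_right _ hs
    obtain ⟨g, w', s', hg0, hco, hw, hss⟩ := Nat.exists_coprime' hg
    subst hw
    subst hss
    have hs'0 : 0 < s' := by
      rcases Nat.eq_zero_or_pos s' with h0 | h0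
      · simp [h0] at hs
      · exact h0
    have hg1 : 0 < g := by
      rcases Nat.eq_zero_or_pos g with h0 | h0
      · simp [h0] at hs
      · exact h0
    have hws : s' < w' := lt_of_mul_lt_mul_right hsw (Nat.zero_le g)
    -- w' ∣ g
    have h3 : w' ∣ g := by
      have h4 : w' * g ∣ g * s' ^ 2 * g := by
        have : (s' * g) ^ 2 = g * s' ^ 2 * g := by ring
        rw [← this]; exact h1
      have h5 : w' ∣ g * s' ^ 2 := Nat.dvd_of_mul_dvd_mul_right hg1 h4
      exact (Nat.Coprime.pow_right 2 hco).dvd_of_dvd_mul_right h5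
    -- g ∣ s'
    have h6 : g ∣ s' := by
      have h7 : (w' * g) ^ 2 - (s' * g) ^ 2 = g * (g * (w' ^ 2 - s' ^ 2)) := by
        rw [Nat.mul_sub, Nat.mul_sub]
        congr 1 <;> ring
      rw [h7] at h2
      have h8 : g * (g * (w' ^ 2 - s' ^ 2)) ∣ g * (s' * ((s' * g) ^ 2 - 1)) := by
        have : s' * g * ((s' * g) ^ 2 - 1) = g * (s' * ((s' * g) ^ 2 - 1)) := by ring
        rw [← this]; exact h2
      have h9 : g * (w' ^ 2 - s' ^ 2) ∣ s' * ((s' * g) ^ 2 - 1) :=
        Nat.dvd_of_mul_dvd_mul_left hg1 h8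
      have h10 : g ∣ s' * ((s' * g) ^ 2 - 1) := dvd_trans (Dvd.intro _ rfl) h9
      have hcop : Nat.Coprime g ((s' * g) ^ 2 - 1) := by
        have hpos : 1 ≤ (s' * g) ^ 2 := Nat.one_le_iff_ne_zero.2 (by positivity)
        have h11 : Nat.Coprime ((s' * g) ^ 2) ((s' * g) ^ 2 - 1) := by
          obtain ⟨k, hk⟩ := Nat.exists_eq_add_of_le hpos
          rw [hk]
          have : 1 + k - 1 = k := by omega
          rw [this, Nat.coprime_comm]
          simp
        exact Nat.Coprime.coprime_dvd_left (Dvd.intro_left _ (by ring : (s' ^ 2 * g) * g = (s' * g) ^ 2)) h11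
      exact hcop.dvd_of_dvd_mul_right h10
    have h12 : w' ≤ g := Nat.le_of_dvd hg1 h3
    have h13 : g ≤ s' := Nat.le_of_dvd hs'0 h6
    omega

end Pool.Agent.SP
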